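import Pool.Agent.W788.NW.Stm

/-!
# The energy controls the variance gained since time one (`S_WO1`)
-/

namespace Pool.Agent.W73.NW

open Finset Pool.Agent.W788.NV Pool.Agent.W788.NW

theorem tg_nonneg {V : Type} [Fintype V] [DecidableEq V] {q : ℕ} (μ f : (V → Fin q) → ℝ)
    (hμ : ∀ x, 0 ≤ μ x) : 0 ≤ tg μ f := by
  unfold tg mean
  refine Finset.sum_nonneg fun a _ => Finset.sum_nonneg fun b _ => Finset.sum_nonneg fun v _ =>
    Finset.sum_nonneg fun x _ => mul_nonneg (hμ x) (sq_nonneg _)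

theorem wo1_ (h : MK) (h1 : S_VAR) (h2 : S_GRD) (h3 : S_ENE) (h4 : S_LAW) (_h5 : S_TOT) :
    S_WO1 := by
  intro V _ _ G q θ Δ η S ω hy x0 g T u hu huT
  have hq1 : 1 ≤ q := le_trans (by norm_num) hy.q2
  obtain ⟨hpr, hmean, -⟩ := h4 V G q θ hq1 hy.t0 hy.t1.le hy.d1
  have hθ := hy.t0
  -- notation
  set r := mrate G q θ with hr
  set m := (act (V := V) (q := q)) with hm
  set W : ℝ → ℝ := fun τ => sg r m τ (fun y => (sg r m (T - τ) g y) ^ 2) x0 with hW
  set W' : ℝ → ℝ := fun τ => sg r m τ (gam r m (sg r m (T - τ) g)) x0 with hW'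
  have hder : ∀ τ, HasDerivAt W (W' τ) τ := fun τ => h1 _ _ r m g x0 T τ
  set K := tg (law G q θ x0 u) (pt G q θ (T - u) g) with hK
  have hlaw : ∀ t, 0 ≤ t → ∀ x, 0 ≤ law G q θ x0 t x := fun t ht => (hpr x0 t ht).1
  have hK0 : 0 ≤ K := tg_nonneg _ _ (hlaw u (by linarith))
  have hc0 : 0 < cN q θ Δ η S := Real.exp_pos _
  -- the bound for the derivative
  have hbd : ∀ τ, 1 ≤ τ → τ ≤ u →
      W' τ ≤ Δ * cN q θ Δ η S * K * Real.exp (-2 * θ * (u - τ)) := by
    intro τ h1τ hτu
    have hf : pt G q θ (T - τ) g = pt G q θ (u - τ) (pt G q θ (T - u) g) := by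
      unfold pt
      rw [← h.add]
      congr 1
      ring
    have e1 : W' τ = mean (law G q θ x0 τ) (gam r m (pt G q θ (T - τ) g)) := (hmean x0 τ _).symm
    have e2 := (h3 V G q θ hq1 hy.t0 hy.t1.le hy.d1 (law G q θ x0 τ) (pt G q θ (T - τ) g)
      (hlaw τ (by linarith))).1
    have e3 : tg (law G q θ x0 τ) (pt G q θ (T - τ) g) ≤
        Δ * cN q θ Δ η S * Real.exp (-2 * θ * (u - τ)) * K := by
      rw [hK, hf]
      unfold tg
      rw [Finset.mul_sum]
      refine Finset.sum_le_sum fun a _ => ?_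
      rw [Finset.mul_sum]
      refine Finset.sum_le_sum fun b _ => ?_
      have e4 := h2 V G q θ Δ η S ω hy a b x0 (pt G q θ (T - u) g) u (u - τ) (by linarith)
        (by linarith)
      rw [show u - (u - τ) = τ by ring] at e4
      exact e4
    rw [e1]
    refine (e2.trans e3).trans (le_of_eq ?_)
    ring
  -- the antitone function
  have hphi : ∀ τ, HasDerivAt
      (fun τ => W τ - Δ * cN q θ Δ η S * K / (2 * θ) * Real.exp (-2 * θ * (u - τ)))
      (W' τ - Δ * cN q θ Δ η S * K * Real.exp (-2 * θ * (u - τ))) τ := by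
    intro τ
    have e1 : HasDerivAt (fun τ : ℝ => -2 * θ * (u - τ)) (2 * θ) τ := by
      have := ((hasDerivAt_id τ).const_sub u).const_mul (-2 * θ)
      convert! this using 1
      ring
    have e2 := (e1.exp.const_mul (Δ * cN q θ Δ η S * K / (2 * θ)))
    have e3 := (hder τ).sub e2
    convert! e3 using 1
    field_simp
  have hanti : AntitoneOn
      (fun τ => W τ - Δ * cN q θ Δ η S * K / (2 * θ) * Real.exp (-2 * θ * (u - τ)))
      (Set.Icc 1 u) := by
    apply antitoneOn_of_deriv_nonpos (convex_Icc 1 u)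
    · exact fun τ _ => (hphi τ).continuousAt.continuousWithinAt
    · exact fun τ _ => (hphi τ).differentiableAt.differentiableWithinAt
    · intro τ hτ
      rw [interior_Icc] at hτ
      rw [(hphi τ).deriv]
      have := hbd τ hτ.1.le hτ.2.le
      linarith
  have e5 := hanti (Set.left_mem_Icc.mpr hu) (Set.right_mem_Icc.mpr hu) hu
  simp only at e5
  have e6 : Real.exp (-2 * θ * (u - u)) = 1 := by
    rw [sub_self, mul_zero, Real.exp_zero]
  rw [e6, mul_one] at e5
  have e7 : 0 ≤ Δ * cN q θ Δ η S * K / (2 * θ) * Real.exp (-2 * θ * (u - 1)) := by positivity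
  have e8 : W u - W 1 ≤ Δ * cN q θ Δ η S * K / (2 * θ) := by linarith
  -- the lower bound for the derivative at `u`
  have e9 := (h3 V G q θ hq1 hy.t0 hy.t1.le hy.d1 (law G q θ x0 u) (pt G q θ (T - u) g)
    (hlaw u (by linarith))).2
  rw [hmean x0 u, ← hK] at e9
  have hq0 : (0 : ℝ) < q := by exact_mod_cast hq1
  have e10 : K ≤ 4 * q ^ 2 / θ * W' u := by
    have : K = 4 * q ^ 2 / θ * (θ / (4 * q ^ 2) * K) := by
      field_simp
    rw [this]
    exact mul_le_mul_of_nonneg_left e9 (by positivity)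
  show W u - W 1 ≤ cV q θ Δ η S * W' u
  refine e8.trans ?_
  calc (Δ : ℝ) * cN q θ Δ η S * K / (2 * θ)
      = (Δ * cN q θ Δ η S / (2 * θ)) * K := by ring
    _ ≤ (Δ * cN q θ Δ η S / (2 * θ)) * (4 * q ^ 2 / θ * W' u) :=
        mul_le_mul_of_nonneg_left e10 (by positivity)
    _ = cV q θ Δ η S * W' u := by
        unfold cV
        field_simp
        ring

end Pool.Agent.W73.NW
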